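import Pool.Agent.H800Z.Erg.St2

/-! From bounded functions to integrable functions. -/

set_option autoImplicit false

open MeasureTheory Filter Topology
open scoped ENNReal NNReal

namespace Pool.Agent.H558Z.Erg

open Pool.Agent.H800Z.Erg

section

variable [MeasurableSpace G] [BorelSpace G] (m : Measure G) [m.IsHaarMeasure]
  {X : Type} [MeasurableSpace X] [MulAction G X] {μ : Measure X} [IsProbabilityMeasure μ]

lemma int_inv (R : ℝ) (h : G → ℝ) : ∫ g in B R, h g⁻¹ ∂m = ∫ g in B R, h g ∂m := by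
  have := isInvInvariant m
  rw [← integral_indicator (measurableSet_B R), ← integral_indicator (measurableSet_B R),
    ← integral_inv_eq_self ((B R).indicator h) m]
  congr 1
  funext g
  by_cases hg : g ∈ B R
  · rw [Set.indicator_of_mem hg, Set.indicator_of_mem (inv_mem_B.2 hg)]
  · rw [Set.indicator_of_notMem hg, Set.indicator_of_notMem (fun h' => hg (inv_mem_B.1 h'))]

lemma meas_lint (hA : Act X μ) {F : X → ℝ≥0∞} (hF : Measurable F) (s : Set G) :
    Measurable (fun x : X => ∫⁻ g in s, F (g • x) ∂m) :=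
  Measurable.lintegral_prod_right' (f := fun p : X × G => F (p.2 • p.1))
    (hF.comp (hA.meas.comp measurable_swap))

lemma lint_ball (hA : Act X μ) {F : X → ℝ≥0∞} (hF : Measurable F) (s : Set G) :
    ∫⁻ x, ∫⁻ g in s, F (g • x) ∂m ∂μ = m s * ∫⁻ x, F x ∂μ := by
  rw [lintegral_lintegral_swap (f := fun x g => F (g • x))
    (hF.comp (hA.meas.comp measurable_swap)).aemeasurable]
  have : ∀ g : G, ∫⁻ x, F (g • x) ∂μ = ∫⁻ x, F x ∂μ := fun g => (hA.pres g).lintegral_comp hF
  simp_rw [this]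
  rw [lintegral_const, Measure.restrict_apply_univ, mul_comm]

lemma ae_ae (hA : Act X μ) {f f' : X → ℝ} (h : f =ᵐ[μ] f') :
    ∀ᵐ x ∂μ, ∀ᵐ g ∂m, f (g • x) = f' (g • x) := by
  obtain ⟨N, hN, hNm, hN0⟩ := exists_measurable_superset_of_null (ae_iff.1 h)
  have hF : Measurable (N.indicator (1 : X → ℝ≥0∞)) := measurable_one.indicator hNm
  have h1 := lint_ball m hA hF Set.univ
  rw [lintegral_indicator_one hNm, hN0, mul_zero,
    lintegral_eq_zero_iff (meas_lint m hA hF Set.univ)] at h1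
  filter_upwards [h1] with x hx
  have hm : Measurable (fun g : G => N.indicator (1 : X → ℝ≥0∞) (g • x)) :=
    hF.comp (hA.meas.comp (measurable_id.prodMk measurable_const))
  simp only [Measure.restrict_univ, Pi.zero_apply] at hx
  rw [lintegral_eq_zero_iff hm] at hx
  filter_upwards [hx] with g hg
  by_contra hne
  have : g • x ∈ N := hN hne
  rw [Set.indicator_of_mem this] at hg
  simp at hg

lemma meas_main {α : ℝ} (hα : 0 < α) (hA : Act X μ) (hM : Max m X μ) (hB : Bdd m X μ α)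
    {f : X → ℝ} (hfm : Measurable f) (hf : Integrable f μ) :
    ∀ᵐ x ∂μ, Tendsto (fun R : ℝ => R⁻¹ * ∫ g in B R, f (g • x) ∂m) atTop
      (𝓝 (α * ∫ y, f y ∂μ)) := by
  obtain ⟨K, hK, hM⟩ := hM
  have hex : ∀ i : ℕ, ∃ b : X → ℝ, Measurable b ∧ (∃ c, ∀ x, |b x| ≤ c) ∧
      ∫⁻ x, ‖f x - b x‖ₑ ∂μ ≤ ENNReal.ofReal (1 / ((i : ℝ) + 1)) := by
    intro i
    have hε : ENNReal.ofReal (1 / ((i : ℝ) + 1)) ≠ 0 := by
      rw [Ne, ENNReal.ofReal_eq_zero, not_le]
      positivity
    obtain ⟨b, hb, _⟩ := (memLp_one_iff_integrable.2 hf).exists_simpleFunc_eLpNorm_sub_lt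
      ENNReal.one_ne_top hε
    refine ⟨b, b.measurable, ?_, ?_⟩
    · obtain ⟨c, hc⟩ := b.exists_forall_norm_le
      exact ⟨c, hc⟩
    · rw [eLpNorm_one_eq_lintegral_enorm] at hb
      exact hb.le
  choose b hbm hbb hbi using hex
  have hFm : ∀ i, Measurable (fun x => ‖f x - b i x‖ₑ) := fun i => (hfm.sub (hbm i)).enorm
  have h1 : ∀ᵐ x ∂μ, ∀ n : ℕ, ∫⁻ g in B n, ‖f (g • x)‖ₑ ∂m < ∞ := by
    rw [ae_all_iff]
    intro n
    refine ae_lt_top (meas_lint m hA hfm.enorm _) ?_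
    rw [lint_ball m hA hfm.enorm]
    exact ENNReal.mul_ne_top (measure_B_lt_top m _).ne hf.2.ne
  have h2 := ae_all_iff.2 (fun i => hB (b i) (hbm i) (hbb i))
  have h3 := ae_all_iff.2 (fun i => hM _ (hFm i)
    (ne_top_of_le_ne_top ENNReal.ofReal_ne_top (hbi i)))
  filter_upwards [h1, h2, h3] with x x1 x2 x3
  have hsm : Measurable (fun g : G => g • x) :=
    hA.meas.comp (measurable_id.prodMk measurable_const)
  have hfi : ∀ R : ℝ, IntegrableOn (fun g : G => f (g • x)) (B R) m := by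
    intro R
    obtain ⟨n, hn⟩ := exists_nat_ge R
    have : IntegrableOn (fun g : G => f (g • x)) (B n) m :=
      ⟨(hfm.comp hsm).aestronglyMeasurable, x1 n⟩
    exact this.mono_set (B_mono hn)
  have hbi' : ∀ i (R : ℝ), IntegrableOn (fun g : G => b i (g • x)) (B R) m := by
    intro i R
    obtain ⟨c, hc⟩ := hbb i
    exact Measure.integrableOn_of_bounded (M := c) (measure_B_lt_top m R).ne
      ((hbm i).comp hsm).aestronglyMeasurable (Eventually.of_forall fun g => hc _)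
  rw [Metric.tendsto_nhds]
  intro ε hε
  have hc : 0 < K.toReal + 1 + α := by positivity
  obtain ⟨i, hi⟩ := exists_nat_one_div_lt (K := ℝ) (ε := ε / 2 / (K.toReal + 1 + α))
    (by positivity)
  set δ : ℝ := 1 / ((i : ℝ) + 1) with hδ
  have hδ0 : 0 < δ := by positivity
  have hδ1 : (K.toReal + 1 + α) * δ < ε / 2 := by
    rw [lt_div_iff₀ hc] at hi
    linarith
  have hlt : limsup (fun R : ℝ => (ENNReal.ofReal R)⁻¹ *
      ∫⁻ g in B R, ‖f (g • x) - b i (g • x)‖ₑ ∂m) atTop <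
      ENNReal.ofReal ((K.toReal + 1) * δ) := by
    refine (x3 i).trans_lt ((mul_le_mul_right (hbi i) K).trans_lt ?_)
    rw [← ENNReal.ofReal_toReal hK, ← ENNReal.ofReal_mul ENNReal.toReal_nonneg,
      ENNReal.ofReal_lt_ofReal_iff (by positivity), ENNReal.toReal_ofReal ENNReal.toReal_nonneg]
    linarith
  have e1 := eventually_lt_of_limsup_lt hlt
  have e2 := Metric.tendsto_nhds.1 (x2 i) (ε / 2) (by positivity)
  have hbint : Integrable (b i) μ := by
    obtain ⟨c, hc⟩ := hbb i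
    exact Integrable.of_bound (hbm i).aestronglyMeasurable c (Eventually.of_forall hc)
  have e3 : |∫ y, f y ∂μ - ∫ y, b i y ∂μ| ≤ δ := by
    rw [← integral_sub hf hbint, ← Real.norm_eq_abs]
    refine (norm_integral_le_lintegral_norm _).trans ?_
    simp only [ofReal_norm]
    exact ENNReal.toReal_le_of_le_ofReal hδ0.le (hbi i)
  filter_upwards [e1, e2, eventually_gt_atTop 0] with R r1 r2 r3
  have e4 : |R⁻¹ * ∫ g in B R, f (g • x) ∂m - R⁻¹ * ∫ g in B R, b i (g • x) ∂m| ≤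
      (K.toReal + 1) * δ := by
    rw [← mul_sub, ← integral_sub (hfi R) (hbi' i R), abs_mul, abs_of_pos (inv_pos.2 r3),
      ← Real.norm_eq_abs]
    refine (mul_le_mul_of_nonneg_left (norm_integral_le_lintegral_norm _)
      (inv_pos.2 r3).le).trans ?_
    simp only [ofReal_norm]
    have := ENNReal.toReal_le_of_le_ofReal (by positivity) r1.le
    rw [ENNReal.toReal_mul, ENNReal.toReal_inv, ENNReal.toReal_ofReal r3.le] at this
    exact this
  rw [Real.dist_eq] at r2 ⊢
  have e5 : |α * ∫ y, b i y ∂μ - α * ∫ y, f y ∂μ| ≤ α * δ := by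
    rw [← mul_sub, abs_mul, abs_of_pos hα, abs_sub_comm]
    exact mul_le_mul_of_nonneg_left e3 hα.le
  have t1 := abs_sub_le (R⁻¹ * ∫ g in B R, f (g • x) ∂m) (R⁻¹ * ∫ g in B R, b i (g • x) ∂m)
    (α * ∫ y, f y ∂μ)
  have t2 := abs_sub_le (R⁻¹ * ∫ g in B R, b i (g • x) ∂m) (α * ∫ y, b i y ∂μ)
    (α * ∫ y, f y ∂μ)
  linarith

end

theorem thm_fin : S_fin := by
  intro _ _ m _ X _ _ μ _ α hα hA hM hB f hf
  have hvol : Tendsto (fun R : ℝ => R⁻¹ * (m (B R)).toReal) atTop (𝓝 α) := by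
    obtain ⟨x, hx⟩ := (hB (fun _ => 1) measurable_const ⟨1, fun _ => by simp⟩).exists
    simpa [Measure.real] using hx
  have hf' : Integrable (hf.1.mk f) μ := hf.congr hf.1.ae_eq_mk
  filter_upwards [meas_main m hα hA hM hB hf.1.stronglyMeasurable_mk.measurable hf',
    ae_ae m hA hf.1.ae_eq_mk] with x x1 x2
  have e : ∀ R : ℝ, ∫ g in B R, f (g⁻¹ • x) ∂m = ∫ g in B R, hf.1.mk f (g • x) ∂m := by
    intro R
    rw [int_inv m R (fun g => f (g • x))]
    exact integral_congr_ae (ae_restrict_of_ae x2)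
  have h1 := (hvol.inv₀ hα.ne').mul x1
  rw [← integral_congr_ae hf.1.ae_eq_mk, ← mul_assoc, inv_mul_cancel₀ hα.ne', one_mul] at h1
  refine h1.congr' ?_
  filter_upwards [eventually_gt_atTop 0] with R hR
  rw [e R, mul_inv, inv_inv]
  field_simp

end Pool.Agent.H558Z.Erg
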